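import Mathlib
import Pool.Agent.Helper73.MixAlg

/-!
# Every finite `2'`-simple group is mixable (MP_892d82_al, Q1)

A finite group `G` is *mixable* if for some `k ≥ 0`, some `g₁, …, g_k ∈ G` and independent
Bernoulli variables `ε₁, …, ε_k` (with freely chosen parameters `pᵢ ∈ [0,1]`), the random product
`g₁^{ε₁} ⋯ g_k^{ε_k}` is exactly uniformly distributed on `G`.  We prove that every finite group
without nontrivial quotients of odd order is mixable.

Idea of the proof.  By semisimplicity of the real group algebra it is enough to send every vector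
`v` of a simple module `V` without invariants to `0` by a product of operators `(1-p) + p g`.
Because `∑ g = 0` on `V`, a closest-point argument shows that the positive cone over the set of
vectors reachable from `v` is dense in `V`; the inverse function theorem shows that from some open
set of vectors one can reach a given nonzero vector exactly, up to a positive factor.  As `G` has
no odd quotient, some `g ∈ G` has a nonzero eigenvector `w` with `g w = -w`; we reach a positive
multiple of `w`, and `(1 + g)/2` kills it.
-/

namespace Pool.Agent.Results.MP_892d82_al.TwoPrimeSimpleMixable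

open scoped Classical in
/-- `G` is mixable: there are `k ≥ 0`, `g₁, …, g_k ∈ G` and `p₁, …, p_k ∈ [0,1]` such that, if
`ε₁, …, ε_k ∈ {0,1}` are independent with `P(εᵢ = 1) = pᵢ`, then the random product
`g₁^{ε₁} g₂^{ε₂} ⋯ g_k^{ε_k}` is exactly uniform on `G`: for every `x ∈ G`, the probabilities
`∏ᵢ P(εᵢ)` of the outcomes `ε ∈ {0,1}^k` with `g₁^{ε₁} ⋯ g_k^{ε_k} = x` add up to `1/|G|`. -/
def Mixable (G : Type*) [Group G] : Prop :=
  ∃ (k : ℕ) (g : Fin k → G) (p : Fin k → ℝ), (∀ i, 0 ≤ p i ∧ p i ≤ 1) ∧
    ∀ x : G,
      (∑ ε : Fin k → Bool,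
        if (List.ofFn fun i => if ε i then g i else 1).prod = x then
          ∏ i, (if ε i then p i else 1 - p i)
        else 0) = 1 / (Nat.card G : ℝ)

/-- `G` is `2'`-simple: its only normal subgroup of odd index is `G` itself. -/
def TwoPrimeSimple (G : Type*) [Group G] : Prop :=
  ∀ N : Subgroup G, N.Normal → Odd N.index → N = ⊤

/-- Expansion of a product of lazy elements of the group algebra. -/
lemma prod_lazy_expand {G : Type*} [Group G] (k : ℕ) (g : Fin k → G) (p : Fin k → ℝ) :
    (List.ofFn fun i => (1 - p i) • (1 : MonoidAlgebra ℝ G) +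
      p i • MonoidAlgebra.of ℝ G (g i)).prod =
    ∑ ε : Fin k → Bool, (∏ i, (if ε i then p i else 1 - p i)) •
      MonoidAlgebra.of ℝ G (List.ofFn fun i => if ε i then g i else 1).prod := by
  induction k with
  | zero =>
    simp
    rfl
  | succ k ih =>
    rw [List.ofFn_succ, List.prod_cons, ih (fun i => g i.succ) (fun i => p i.succ)]
    rw [← (Fin.consEquiv (fun _ => Bool)).sum_comp]
    rw [Fintype.sum_prod_type]
    simp only [Fin.consEquiv_apply, Fin.prod_univ_succ, Fin.cons_zero, Fin.cons_succ,
      List.ofFn_succ, List.prod_cons, Fintype.sum_bool, if_true, map_mul, Bool.false_eq_true,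
      if_false, map_one, one_mul]
    rw [add_mul, add_comm, Finset.mul_sum, Finset.mul_sum]
    congr 1
    · refine Finset.sum_congr rfl fun ε _ => ?_
      rw [smul_mul_smul_comm]
    · refine Finset.sum_congr rfl fun ε _ => ?_
      rw [smul_mul_smul_comm, one_mul]

/-- **Answer to Q1 (affirmative).** Every finite `2'`-simple group is mixable. -/
theorem result (G : Type*) [Group G] [Finite G] (hG : TwoPrimeSimple G) : Mixable G := by
  classical
  have := Fintype.ofFinite G
  have hmem := Helper73.Mix.unif_mem_lazySub (G := G) hG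
  obtain ⟨l, hl, hprod⟩ := Submonoid.exists_list_of_mem_closure hmem
  have hl' : ∀ i : Fin l.length, ∃ (g : G) (p : ℝ), 0 ≤ p ∧ p ≤ 1 ∧
      l.get i = (1 - p) • (1 : MonoidAlgebra ℝ G) + p • MonoidAlgebra.of ℝ G g :=
    fun i => hl _ (List.get_mem l i)
  choose g p h0 h1 h using hl'
  refine ⟨l.length, g, p, fun i => ⟨h0 i, h1 i⟩, fun x => ?_⟩
  have e1 : l = List.ofFn fun i => (1 - p i) • (1 : MonoidAlgebra ℝ G) +
      p i • MonoidAlgebra.of ℝ G (g i) := by
    conv_lhs => rw [← List.ofFn_get l]
    congr 1
    funext i
    exact h i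
  rw [e1, prod_lazy_expand] at hprod
  have h2 := congrArg (fun a : MonoidAlgebra ℝ G => a.coeff x) hprod
  simp only [Helper73.Mix.unif, MonoidAlgebra.of_apply, MonoidAlgebra.coeff_sum,
    MonoidAlgebra.coeff_smul, MonoidAlgebra.coeff_single, Finsupp.coe_finsetSum,
    Finset.sum_apply, Finsupp.smul_apply, Finsupp.single_apply, smul_eq_mul, mul_ite, mul_one,
    mul_zero] at h2
  rw [h2, Nat.card_eq_fintype_card]
  simp

end Pool.Agent.Results.MP_892d82_al.TwoPrimeSimpleMixable
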